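import Pool.Agent.H.MP_ce2c94_gt.h42.Wien3

/-!
Reflections, parity classes, symmetrisation, jets and the Leibniz rule in the Wiener algebra.
-/

namespace Pool.MP_ce2c94_gt.D3W

noncomputable section

open Finset Complex

/-! ### reflections -/

/-- reflection of the first frequency -/
def su (k : ℤ × ℤ) : ℤ × ℤ := (-k.1, k.2)

/-- reflection of the second frequency -/
def st (k : ℤ × ℤ) : ℤ × ℤ := (k.1, -k.2)

@[simp] theorem su_su (k : ℤ × ℤ) : su (su k) = k := by simp [su]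
@[simp] theorem st_st (k : ℤ × ℤ) : st (st k) = k := by simp [st]
theorem su_st (k : ℤ × ℤ) : su (st k) = -k := by ext <;> simp [su, st]
theorem st_su (k : ℤ × ℤ) : st (su k) = -k := by ext <;> simp [su, st]
theorem su_add (k l : ℤ × ℤ) : su (k + l) = su k + su l := by ext <;> simp [su, add_comm]
theorem st_add (k l : ℤ × ℤ) : st (k + l) = st k + st l := by ext <;> simp [st, add_comm]
@[simp] theorem su_zero : su 0 = 0 := by simp [su]
@[simp] theorem st_zero : st 0 = 0 := by simp [st]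
@[simp] theorem wt_su (k : ℤ × ℤ) : wt (su k) = wt k := by simp [wt, su]
@[simp] theorem wt_st (k : ℤ × ℤ) : wt (st k) = wt k := by simp [wt, st]
@[simp] theorem wt_neg (k : ℤ × ℤ) : wt (-k) = wt k := by simp [wt]

theorem su_aux (k : ℤ × ℤ) : ‖e (su k)‖ ≤ 1 * wt k := by rw [norm_e, wt_su, one_mul]
theorem st_aux (k : ℤ × ℤ) : ‖e (st k)‖ ≤ 1 * wt k := by rw [norm_e, wt_st, one_mul]

/-- reflection in `u`, as a continuous linear map -/
def ruL : W →L[ℝ] W := ofCol fun k => e (su k)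

/-- reflection in `t`, as a continuous linear map -/
def rtL : W →L[ℝ] W := ofCol fun k => e (st k)

theorem ruL_e (k : ℤ × ℤ) : ruL (e k) = e (su k) := ofCol_e su_aux k
theorem rtL_e (k : ℤ × ℤ) : rtL (e k) = e (st k) := ofCol_e st_aux k

/-- reflection in `u` -/
def ru : W →ₐ[ℝ] W :=
  AlgHom.ofLinearMap ruL.toLinearMap (by
    change ruL 1 = 1
    rw [← e_zero, ruL_e, su_zero]) (by
    intro f g
    exact map_mul_of_e ruL (fun k l => by rw [← e_add, ruL_e, ruL_e, ruL_e, su_add, e_add]) f g)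

/-- reflection in `t` -/
def rt : W →ₐ[ℝ] W :=
  AlgHom.ofLinearMap rtL.toLinearMap (by
    change rtL 1 = 1
    rw [← e_zero, rtL_e, st_zero]) (by
    intro f g
    exact map_mul_of_e rtL (fun k l => by rw [← e_add, rtL_e, rtL_e, rtL_e, st_add, e_add]) f g)

theorem ru_eq (f : W) : ru f = ruL f := rfl
theorem rt_eq (f : W) : rt f = rtL f := rfl
theorem ru_e (k : ℤ × ℤ) : ru (e k) = e (su k) := ruL_e k
theorem rt_e (k : ℤ × ℤ) : rt (e k) = e (st k) := rtL_e k

theorem norm_ru_le (f : W) : ‖ru f‖ ≤ ‖f‖ := by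
  have h := norm_ofCol_le su_aux f
  rw [one_mul] at h; exact h

theorem norm_rt_le (f : W) : ‖rt f‖ ≤ ‖f‖ := by
  have h := norm_ofCol_le st_aux f
  rw [one_mul] at h; exact h

theorem coef_ru (k : ℤ × ℤ) (f : W) : coef k (ru f) = coef (su k) f := by
  have h : (coef k).comp ruL = coef (su k) := clm_ext fun l => by
    rw [ContinuousLinearMap.comp_apply, ruL_e, coef_e, coef_e]
    refine if_congr ⟨fun h => ?_, fun h => ?_⟩ rfl rfl
    · rw [← h, su_su]
    · rw [h, su_su]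
  exact congrArg (fun S : W →L[ℝ] ℝ => S f) h

theorem coef_rt (k : ℤ × ℤ) (f : W) : coef k (rt f) = coef (st k) f := by
  have h : (coef k).comp rtL = coef (st k) := clm_ext fun l => by
    rw [ContinuousLinearMap.comp_apply, rtL_e, coef_e, coef_e]
    refine if_congr ⟨fun h => ?_, fun h => ?_⟩ rfl rfl
    · rw [← h, st_st]
    · rw [h, st_st]
  exact congrArg (fun S : W →L[ℝ] ℝ => S f) h

@[simp] theorem ru_ru (f : W) : ru (ru f) = f :=
  W_ext fun k => by rw [coef_ru, coef_ru, su_su]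
@[simp] theorem rt_rt (f : W) : rt (rt f) = f :=
  W_ext fun k => by rw [coef_rt, coef_rt, st_st]
theorem ru_rt (f : W) : ru (rt f) = rt (ru f) :=
  W_ext fun k => by rw [coef_ru, coef_rt, coef_rt, coef_ru, su_st, st_su]

theorem norm_ru (f : W) : ‖ru f‖ = ‖f‖ :=
  le_antisymm (norm_ru_le f) (by simpa using norm_ru_le (ru f))
theorem norm_rt (f : W) : ‖rt f‖ = ‖f‖ :=
  le_antisymm (norm_rt_le f) (by simpa using norm_rt_le (rt f))

theorem ev_ru (u t : ℝ) (f : W) : ev u t (ru f) = ev (-u) t f := by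
  have h : (evL u t).comp ruL = evL (-u) t := clm_ext fun l => by
    rw [ContinuousLinearMap.comp_apply, ruL_e, evL_e, evL_e]
    unfold chr su
    congr 2
    push_cast
    ring
  exact congrArg (fun S : W →L[ℝ] ℂ => S f) h

theorem ev_rt (u t : ℝ) (f : W) : ev u t (rt f) = ev u (-t) f := by
  have h : (evL u t).comp rtL = evL u (-t) := clm_ext fun l => by
    rw [ContinuousLinearMap.comp_apply, rtL_e, evL_e, evL_e]
    unfold chr st
    congr 2
    push_cast
    ring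
  exact congrArg (fun S : W →L[ℝ] ℂ => S f) h

/-! ### parity classes -/

/-- `f` is multiplied by `a` under reflection in `u` and by `b` under reflection in `t` -/
structure Par (a b : ℝ) (f : W) : Prop where
  u : ru f = a • f
  t : rt f = b • f

theorem par_iff {a b : ℝ} {f : W} :
    Par a b f ↔ (∀ k, coef (su k) f = a * coef k f) ∧ ∀ k, coef (st k) f = b * coef k f := by
  constructor
  · rintro ⟨h1, h2⟩
    refine ⟨fun k => ?_, fun k => ?_⟩
    · rw [← coef_ru, h1, map_smul, smul_eq_mul]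
    · rw [← coef_rt, h2, map_smul, smul_eq_mul]
  · rintro ⟨h1, h2⟩
    refine ⟨W_ext fun k => ?_, W_ext fun k => ?_⟩
    · rw [coef_ru, h1, map_smul, smul_eq_mul]
    · rw [coef_rt, h2, map_smul, smul_eq_mul]

namespace Par

theorem add {a b : ℝ} {f g : W} (hf : Par a b f) (hg : Par a b g) : Par a b (f + g) :=
  ⟨by rw [map_add, hf.u, hg.u, smul_add], by rw [map_add, hf.t, hg.t, smul_add]⟩

theorem sub {a b : ℝ} {f g : W} (hf : Par a b f) (hg : Par a b g) : Par a b (f - g) :=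
  ⟨by rw [map_sub, hf.u, hg.u, smul_sub], by rw [map_sub, hf.t, hg.t, smul_sub]⟩

theorem neg {a b : ℝ} {f : W} (hf : Par a b f) : Par a b (-f) :=
  ⟨by rw [map_neg, hf.u, smul_neg], by rw [map_neg, hf.t, smul_neg]⟩

theorem smul {a b : ℝ} {f : W} (c : ℝ) (hf : Par a b f) : Par a b (c • f) :=
  ⟨by rw [map_smul, hf.u, smul_comm], by rw [map_smul, hf.t, smul_comm]⟩

theorem mul {a b a' b' : ℝ} {f g : W} (hf : Par a b f) (hg : Par a' b' g) :
    Par (a * a') (b * b') (f * g) :=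
  ⟨by rw [map_mul, hf.u, hg.u, smul_mul_smul_comm], by rw [map_mul, hf.t, hg.t, smul_mul_smul_comm]⟩

theorem one : Par 1 1 (1 : W) := ⟨by simp, by simp⟩

theorem zero {a b : ℝ} : Par a b (0 : W) := ⟨by simp, by simp⟩

theorem cast {a b a' b' : ℝ} {f : W} (hf : Par a b f) (ha : a = a') (hb : b = b') :
    Par a' b' f := by subst ha; subst hb; exact hf

/-- complex conjugation of the values -/
theorem conj {a b : ℝ} {f : W} (hf : Par a b f) (u t : ℝ) :
    (starRingEnd ℂ) (ev u t f) = ((a * b : ℝ) : ℂ) * ev u t f := by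
  rw [conj_ev, ← ev_rt, ← ev_ru, hf.t, map_smul, hf.u, smul_smul, map_smul, Complex.real_smul]
  push_cast; ring

theorem im_eq_zero {a b : ℝ} {f : W} (hf : Par a b f) (h : a * b = 1) (u t : ℝ) :
    (ev u t f).im = 0 := by
  have h1 := hf.conj u t
  rw [h, Complex.ofReal_one, one_mul] at h1
  exact Complex.conj_eq_iff_im.mp h1

theorem re_eq_zero {a b : ℝ} {f : W} (hf : Par a b f) (h : a * b = -1) (u t : ℝ) :
    (ev u t f).re = 0 := by
  have h1 := hf.conj u t
  rw [h] at h1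
  have h2 := congrArg Complex.re h1
  simp at h2
  linarith

theorem ev_eq_re {a b : ℝ} {f : W} (hf : Par a b f) (h : a * b = 1) (u t : ℝ) :
    ev u t f = ((ev u t f).re : ℂ) := by
  apply Complex.ext
  · simp
  · simp [hf.im_eq_zero h u t]

theorem ev_eq_im {a b : ℝ} {f : W} (hf : Par a b f) (h : a * b = -1) (u t : ℝ) :
    ev u t f = I * ((ev u t f).im : ℂ) := by
  apply Complex.ext
  · simp [hf.re_eq_zero h u t]
  · simp

end Par

/-! ### symmetrisation -/

/-- the projection onto the functions even in both variables -/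
def sym : W →L[ℝ] W :=
  (1 / 4 : ℝ) • (ContinuousLinearMap.id ℝ W + ruL + rtL + ruL.comp rtL)

theorem sym_apply (f : W) : sym f = (1 / 4 : ℝ) • (f + ru f + rt f + ru (rt f)) := rfl

theorem norm_sym_le (f : W) : ‖sym f‖ ≤ ‖f‖ := by
  rw [sym_apply, norm_smul]
  have h1 := norm_add_le (f + ru f + rt f) (ru (rt f))
  have h2 := norm_add_le (f + ru f) (rt f)
  have h3 := norm_add_le f (ru f)
  rw [norm_ru, norm_rt] at h1
  rw [norm_rt] at h2
  rw [norm_ru] at h3
  rw [Real.norm_eq_abs, abs_of_pos (by norm_num : (0 : ℝ) < 1 / 4)]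
  linarith

theorem par_sym (f : W) : Par 1 1 (sym f) := by
  constructor
  · rw [sym_apply, map_smul, one_smul]
    simp only [map_add, ru_ru]
    congr 1; abel
  · rw [sym_apply, map_smul, one_smul]
    simp only [map_add, ← ru_rt, rt_rt]
    congr 1; abel

theorem sym_of_par {f : W} (h : Par 1 1 f) : sym f = f := by
  rw [sym_apply, h.t, map_smul, h.u, one_smul, one_smul, ← two_smul ℝ f, ]
  rw [show (2 : ℝ) • f + f + f = (4 : ℝ) • f by module, smul_smul]
  norm_num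

theorem sym_eq_iff {f : W} : sym f = f ↔ Par 1 1 f :=
  ⟨fun h => h ▸ par_sym f, sym_of_par⟩

theorem sym_sym (f : W) : sym (sym f) = sym f := sym_of_par (par_sym f)

theorem sym_mul {f : W} (h : Par 1 1 f) (g : W) : sym (f * g) = f * sym g := by
  rw [sym_apply, sym_apply]
  simp only [map_mul, h.u, h.t, one_smul]
  rw [← mul_add, ← mul_add, ← mul_add, mul_smul_comm]

theorem sym_e (k : ℤ × ℤ) :
    sym (e k) = (1 / 4 : ℝ) • (e k + e (su k) + e (st k) + e (-k)) := by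
  rw [sym_apply, ru_e, rt_e, ru_e, su_st]

/-- orbits of frequencies: the symmetrised exponential only depends on the absolute values -/
theorem sym_e_su (k : ℤ × ℤ) : sym (e (su k)) = sym (e k) := by
  rw [sym_e, sym_e, su_su, st_su, show (-su k) = st k by ext <;> simp [su, st]]
  congr 1; abel

theorem sym_e_st (k : ℤ × ℤ) : sym (e (st k)) = sym (e k) := by
  rw [sym_e, sym_e, st_st, su_st, show (-st k) = su k by ext <;> simp [su, st]]
  congr 1; abel

theorem sym_e_abs (k : ℤ × ℤ) : sym (e (|k.1|, |k.2|)) = sym (e k) := by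
  rcases k with ⟨a, b⟩
  rcases abs_choice a with ha | ha <;> rcases abs_choice b with hb | hb <;> rw [ha, hb]
  · exact sym_e_st (a, b)
  · exact sym_e_su (a, b)
  · have := sym_e_su (a, -b)
    rw [show su (a, -b) = (-a, -b) from rfl] at this
    exact this.trans (sym_e_st (a, b))

/-- the closed subspace of even/even elements -/
def WS : Submodule ℝ W where
  carrier := {f | Par 1 1 f}
  add_mem' := Par.add
  zero_mem' := Par.zero
  smul_mem' c _ h := Par.smul c h

theorem mem_WS {f : W} : f ∈ WS ↔ Par 1 1 f := Iff.rfl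

theorem isClosed_WS : IsClosed (WS : Set W) := by
  have h : (WS : Set W) = {f | sym f = f} := by
    ext f; exact sym_eq_iff.symm
  rw [h]
  exact isClosed_eq sym.continuous continuous_id

instance : CompleteSpace WS := isClosed_WS.completeSpace_coe

/-- operator bound on the even/even subspace by the columns on symmetrised exponentials -/
theorem norm_le_of_sym_col {V : Type*} [NormedAddCommGroup V] [NormedSpace ℝ V]
    (T : W →L[ℝ] V) {C : ℝ} (h : ∀ k : ℤ × ℤ, 0 ≤ k.1 → 0 ≤ k.2 → ‖T (sym (e k))‖ ≤ C * wt k)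
    {f : W} (hf : Par 1 1 f) : ‖T f‖ ≤ C * ‖f‖ := by
  have h1 := norm_le_of_col (T.comp sym) (C := C) (fun k => by
    rw [ContinuousLinearMap.comp_apply, ← sym_e_abs k]
    refine (h _ (abs_nonneg _) (abs_nonneg _)).trans_eq ?_
    rw [wt, wt, Int.natAbs_abs, Int.natAbs_abs]) f
  rw [ContinuousLinearMap.comp_apply, sym_of_par hf] at h1
  exact h1

/-! ### multipliers and reflections -/

theorem mult_ru {m : ℤ × ℤ → ℝ} {C : ℝ} (h : ∀ k, |m k| ≤ C) {c : ℝ} (hm : ∀ k, m (su k) = c * m k)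
    (f : W) : ru (mult m f) = c • mult m (ru f) :=
  W_ext fun k => by
    rw [coef_ru, coef_mult h, map_smul, coef_mult h, coef_ru, hm, smul_eq_mul, mul_assoc]

theorem mult_rt {m : ℤ × ℤ → ℝ} {C : ℝ} (h : ∀ k, |m k| ≤ C) {c : ℝ} (hm : ∀ k, m (st k) = c * m k)
    (f : W) : rt (mult m f) = c • mult m (rt f) :=
  W_ext fun k => by
    rw [coef_rt, coef_mult h, map_smul, coef_mult h, coef_rt, hm, smul_eq_mul, mul_assoc]

theorem Par.mult {m : ℤ × ℤ → ℝ} {C : ℝ} (h : ∀ k, |m k| ≤ C) {c d a b : ℝ}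
    (hc : ∀ k, m (su k) = c * m k) (hd : ∀ k, m (st k) = d * m k) {f : W} (hf : Par a b f) :
    Par (c * a) (d * b) (D3W.mult m f) :=
  ⟨by rw [mult_ru h hc, hf.u, map_smul, smul_smul], by rw [mult_rt h hd, hf.t, map_smul, smul_smul]⟩

/-! ### derivatives: algebra -/

namespace IsDu

theorem add {f g f' g' : W} (hf : IsDu f f') (hg : IsDu g g') : IsDu (f + g) (f' + g') :=
  fun k => by rw [map_add, map_add, hf k, hg k]; ring

theorem sub {f g f' g' : W} (hf : IsDu f f') (hg : IsDu g g') : IsDu (f - g) (f' - g') :=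
  fun k => by rw [map_sub, map_sub, hf k, hg k]; ring

theorem smul {f f' : W} (c : ℝ) (hf : IsDu f f') : IsDu (c • f) (c • f') :=
  fun k => by rw [map_smul, map_smul, hf k, smul_eq_mul, smul_eq_mul]; ring

theorem unique {f g g' : W} (h : IsDu f g) (h' : IsDu f g') : g = g' :=
  W_ext fun k => by rw [h k, h' k]

end IsDu

namespace IsDt

theorem add {f g f' g' : W} (hf : IsDt f f') (hg : IsDt g g') : IsDt (f + g) (f' + g') :=
  fun k => by rw [map_add, map_add, hf k, hg k]; ring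

theorem sub {f g f' g' : W} (hf : IsDt f f') (hg : IsDt g g') : IsDt (f - g) (f' - g') :=
  fun k => by rw [map_sub, map_sub, hf k, hg k]; ring

theorem smul {f f' : W} (c : ℝ) (hf : IsDt f f') : IsDt (c • f) (c • f') :=
  fun k => by rw [map_smul, map_smul, hf k, smul_eq_mul, smul_eq_mul]; ring

theorem unique {f g g' : W} (h : IsDt f g) (h' : IsDt f g') : g = g' :=
  W_ext fun k => by rw [h k, h' k]

end IsDt

/-- coefficients of a product -/
theorem hasSum_coef_mul (k : ℤ × ℤ) (f g : W) :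
    HasSum (fun l => coef l g * coef (k - l) f) (coef k (f * g)) := by
  have h := hasSum_clm ((coef k).comp (ContinuousLinearMap.mul ℝ W f)) g
  simp only [ContinuousLinearMap.comp_apply, ContinuousLinearMap.mul_apply', coef_mul_e,
    smul_eq_mul] at h
  exact h

theorem IsDu.mul {f g f' g' : W} (hf : IsDu f f') (hg : IsDu g g') :
    IsDu (f * g) (f' * g + f * g') := fun k => by
  rw [map_add]
  have h1 := hasSum_coef_mul k f' g
  have h2 := hasSum_coef_mul k f g'
  have h3 := (hasSum_coef_mul k f g).mul_left (k.1 : ℝ)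
  refine HasSum.unique (h1.add h2) ?_
  rw [← h3.tsum_eq, ← tsum_congr (f := fun l => coef l g * coef (k - l) f' +
    coef l g' * coef (k - l) f)]
  · exact (h1.add h2).summable.hasSum
  · intro l
    rw [hf, hg, Prod.fst_sub]
    push_cast
    ring

theorem IsDt.mul {f g f' g' : W} (hf : IsDt f f') (hg : IsDt g g') :
    IsDt (f * g) (f' * g + f * g') := fun k => by
  rw [map_add]
  have h1 := hasSum_coef_mul k f' g
  have h2 := hasSum_coef_mul k f g'
  have h3 := (hasSum_coef_mul k f g).mul_left (k.2 : ℝ)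
  refine HasSum.unique (h1.add h2) ?_
  rw [← h3.tsum_eq, ← tsum_congr (f := fun l => coef l g * coef (k - l) f' +
    coef l g' * coef (k - l) f)]
  · exact (h1.add h2).summable.hasSum
  · intro l
    rw [hf, hg, Prod.snd_sub]
    push_cast
    ring


/-! ### the jets of the unknown -/

/-- the weight of the second order norm -/
def om (a b s : ℝ) (k : ℤ × ℤ) : ℝ := a * (k.1 : ℝ) ^ 2 + b * (k.2 : ℝ) ^ 2 + s

section Jets

variable {a b s : ℝ}

theorem om_pos (ha : 0 ≤ a) (hb : 0 ≤ b) (hs : 0 < s) (k : ℤ × ℤ) : 0 < om a b s k := by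
  unfold om; positivity

theorem om_su (k : ℤ × ℤ) : om a b s (su k) = om a b s k := by simp [om, su]
theorem om_st (k : ℤ × ℤ) : om a b s (st k) = om a b s k := by simp [om, st]

/-- the symbol of a jet -/
def sb (a b s : ℝ) (p q : ℕ) (k : ℤ × ℤ) : ℝ := (k.1 : ℝ) ^ p * (k.2 : ℝ) ^ q / om a b s k

theorem sb_bound {p q : ℕ} (ha : 0 ≤ a) (hb : 0 ≤ b) (hs : 0 < s) {d : ℝ}
    (h : ∀ x y : ℝ, |x| ^ p * |y| ^ q ≤ d * (a * x ^ 2 + b * y ^ 2 + s)) (k : ℤ × ℤ) :
    |sb a b s p q k| ≤ d := by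
  have h1 := om_pos ha hb hs k
  unfold sb
  rw [abs_div, abs_of_pos h1, div_le_iff₀ h1, abs_mul, abs_pow, abs_pow]
  exact h _ _

theorem sb_bound_00 (ha : 0 ≤ a) (hb : 0 ≤ b) (hs : 0 < s) {d : ℝ} (hd : 0 ≤ d)
    (h : 1 ≤ d * s) (k : ℤ × ℤ) : |sb a b s 0 0 k| ≤ d :=
  sb_bound ha hb hs (fun x y => by
    have := mul_nonneg hd (mul_nonneg ha (sq_nonneg x))
    have := mul_nonneg hd (mul_nonneg hb (sq_nonneg y))
    nlinarith) k

theorem sb_bound_10 (ha : 0 ≤ a) (hb : 0 ≤ b) (hs : 0 < s) {d : ℝ} (hd : 0 ≤ d)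
    (h : 1 ≤ 4 * a * s * d ^ 2) (k : ℤ × ℤ) : |sb a b s 1 0 k| ≤ d :=
  sb_bound ha hb hs (fun x y => by
    have h1 : 0 ≤ |x| := abs_nonneg x
    have h2 : |x| ^ 2 = x ^ 2 := sq_abs x
    have h3 := mul_nonneg hd (mul_nonneg hb (sq_nonneg y))
    rw [pow_one, pow_zero, mul_one]
    -- `|x| ≤ d (a x^2 + s)`, from `(d a |x| - 1/2)^2 ≥ 0` and `4 a s d^2 ≥ 1`
    rcases ha.eq_or_lt with h0 | h0
    · subst h0; simp at h; linarith
    · rcases hd.eq_or_lt with h4 | h4
      · subst h4; simp at h; linarith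
      · have h5 : 0 ≤ (2 * d * a * |x| - 1) ^ 2 := sq_nonneg _
        have h6 : 0 < 4 * d * a := by positivity
        have h7 : 4 * d * a * |x| ≤ 4 * d * a * (d * (a * |x| ^ 2 + s)) := by nlinarith
        have h8 := le_of_mul_le_mul_left h7 h6
        rw [h2] at h8
        nlinarith) k

theorem sb_bound_01 (ha : 0 ≤ a) (hb : 0 ≤ b) (hs : 0 < s) {d : ℝ} (hd : 0 ≤ d)
    (h : 1 ≤ 4 * b * s * d ^ 2) (k : ℤ × ℤ) : |sb a b s 0 1 k| ≤ d :=
  sb_bound ha hb hs (fun x y => by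
    have h1 : 0 ≤ |y| := abs_nonneg y
    have h2 : |y| ^ 2 = y ^ 2 := sq_abs y
    have h3 := mul_nonneg hd (mul_nonneg ha (sq_nonneg x))
    rw [pow_one, pow_zero, one_mul]
    rcases hb.eq_or_lt with h0 | h0
    · subst h0; simp at h; linarith
    · rcases hd.eq_or_lt with h4 | h4
      · subst h4; simp at h; linarith
      · have h5 : 0 ≤ (2 * d * b * |y| - 1) ^ 2 := sq_nonneg _
        have h6 : 0 < 4 * d * b := by positivity
        have h7 : 4 * d * b * |y| ≤ 4 * d * b * (d * (b * |y| ^ 2 + s)) := by nlinarith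
        have h8 := le_of_mul_le_mul_left h7 h6
        rw [h2] at h8
        nlinarith) k

theorem sb_bound_20 (ha : 0 ≤ a) (hb : 0 ≤ b) (hs : 0 < s) {d : ℝ} (hd : 0 ≤ d)
    (h : 1 ≤ d * a) (k : ℤ × ℤ) : |sb a b s 2 0 k| ≤ d :=
  sb_bound ha hb hs (fun x y => by
    rw [sq_abs, pow_zero, mul_one]
    have h1 := mul_nonneg hd (mul_nonneg hb (sq_nonneg y))
    have h2 := mul_nonneg hd hs.le
    have h3 := mul_le_mul_of_nonneg_right h (sq_nonneg x)
    nlinarith) k

theorem sb_bound_02 (ha : 0 ≤ a) (hb : 0 ≤ b) (hs : 0 < s) {d : ℝ} (hd : 0 ≤ d)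
    (h : 1 ≤ d * b) (k : ℤ × ℤ) : |sb a b s 0 2 k| ≤ d :=
  sb_bound ha hb hs (fun x y => by
    rw [sq_abs, pow_zero, one_mul]
    have h1 := mul_nonneg hd (mul_nonneg ha (sq_nonneg x))
    have h2 := mul_nonneg hd hs.le
    have h3 := mul_le_mul_of_nonneg_right h (sq_nonneg y)
    nlinarith) k

theorem sb_bound_11 (ha : 0 ≤ a) (hb : 0 ≤ b) (hs : 0 < s) {d : ℝ} (hd : 0 ≤ d)
    (h : 1 ≤ 4 * a * b * d ^ 2) (k : ℤ × ℤ) : |sb a b s 1 1 k| ≤ d :=
  sb_bound ha hb hs (fun x y => by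
    rw [pow_one, pow_one]
    have hx : 0 ≤ |x| := abs_nonneg x
    have hy : 0 ≤ |y| := abs_nonneg y
    have h2 : |x| ^ 2 = x ^ 2 := sq_abs x
    have h3 : |y| ^ 2 = y ^ 2 := sq_abs y
    have h4 := mul_nonneg hd hs.le
    rcases ha.eq_or_lt with h0 | h0
    · subst h0; simp at h; linarith
    · rcases hd.eq_or_lt with h5 | h5
      · subst h5; simp at h; linarith
      · have h6 : 0 ≤ (2 * d * a * |x| - |y|) ^ 2 := sq_nonneg _
        have h7 : 0 < 4 * d * a := by positivity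
        have h8 : |y| ^ 2 ≤ 4 * a * b * d ^ 2 * |y| ^ 2 := by
          have := mul_le_mul_of_nonneg_right h (sq_nonneg |y|)
          linarith
        have h9 : 4 * d * a * (|x| * |y|) ≤ 4 * d * a * (d * (a * |x| ^ 2 + b * |y| ^ 2)) := by
          nlinarith
        have h10 := le_of_mul_le_mul_left h9 h7
        rw [h2, h3] at h10
        nlinarith) k

/-- some bound for the symbols of the jets of order at most two -/
theorem sb_bdd (ha : 0 < a) (hb : 0 < b) (hs : 0 < s) {p q : ℕ} (h : p + q ≤ 2) :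
    ∃ C : ℝ, ∀ k, |sb a b s p q k| ≤ C := by
  have key : ∀ d : ℝ, 0 ≤ d → (1 ≤ d * s ∧ 1 ≤ 4 * a * s * d ^ 2 ∧ 1 ≤ 4 * b * s * d ^ 2 ∧
      1 ≤ d * a ∧ 1 ≤ d * b ∧ 1 ≤ 4 * a * b * d ^ 2) → ∃ C : ℝ, ∀ k, |sb a b s p q k| ≤ C := by
    intro d hd ⟨h1, h2, h3, h4, h5, h6⟩
    refine ⟨d, fun k => ?_⟩
    have hpq : (p = 0 ∧ q = 0) ∨ (p = 1 ∧ q = 0) ∨ (p = 0 ∧ q = 1) ∨ (p = 2 ∧ q = 0) ∨
      (p = 1 ∧ q = 1) ∨ (p = 0 ∧ q = 2) := by omega
    rcases hpq with ⟨rfl, rfl⟩ | ⟨rfl, rfl⟩ | ⟨rfl, rfl⟩ | ⟨rfl, rfl⟩ | ⟨rfl, rfl⟩ | ⟨rfl, rfl⟩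
    · exact sb_bound_00 ha.le hb.le hs hd h1 k
    · exact sb_bound_10 ha.le hb.le hs hd h2 k
    · exact sb_bound_01 ha.le hb.le hs hd h3 k
    · exact sb_bound_20 ha.le hb.le hs hd h4 k
    · exact sb_bound_11 ha.le hb.le hs hd h6 k
    · exact sb_bound_02 ha.le hb.le hs hd h5 k
  have h1 : 1 / a * a = 1 := by field_simp
  have h2 : 1 / b * b = 1 := by field_simp
  have h3 : 1 / s * s = 1 := by field_simp
  have pa : 0 < 1 / a := by positivity
  have pb : 0 < 1 / b := by positivity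
  have ps : 0 < 1 / s := by positivity
  set d := 1 / a + 1 / b + 1 / s with hd
  have da : 1 ≤ d * a := by rw [hd]; nlinarith
  have db : 1 ≤ d * b := by rw [hd]; nlinarith
  have ds : 1 ≤ d * s := by rw [hd]; nlinarith
  refine key d (by positivity) ⟨ds, ?_, ?_, da, db, ?_⟩
  · nlinarith [mul_le_mul da ds zero_le_one (by positivity)]
  · nlinarith [mul_le_mul db ds zero_le_one (by positivity)]
  · nlinarith [mul_le_mul da db zero_le_one (by positivity)]

/-- the jet of order `(p, q)` of the unknown with second order data `y` -/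
def jet (a b s : ℝ) (p q : ℕ) : W →L[ℝ] W := mult (sb a b s p q)

theorem coef_jet (ha : 0 < a) (hb : 0 < b) (hs : 0 < s) {p q : ℕ} (h : p + q ≤ 2) (k : ℤ × ℤ)
    (y : W) : coef k (jet a b s p q y) = sb a b s p q k * coef k y := by
  obtain ⟨C, hC⟩ := sb_bdd ha hb hs h
  exact coef_mult hC k y

theorem isDu_jet (ha : 0 < a) (hb : 0 < b) (hs : 0 < s) {p q : ℕ} (h : p + 1 + q ≤ 2) (y : W) :
    IsDu (jet a b s p q y) (jet a b s (p + 1) q y) := fun k => by
  rw [coef_jet ha hb hs h, coef_jet ha hb hs (by omega)]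
  unfold sb
  rw [pow_succ]
  ring

theorem isDt_jet (ha : 0 < a) (hb : 0 < b) (hs : 0 < s) {p q : ℕ} (h : p + (q + 1) ≤ 2) (y : W) :
    IsDt (jet a b s p q y) (jet a b s p (q + 1) y) := fun k => by
  rw [coef_jet ha hb hs h, coef_jet ha hb hs (by omega)]
  unfold sb
  rw [pow_succ]
  ring

theorem par_jet (ha : 0 < a) (hb : 0 < b) (hs : 0 < s) {p q : ℕ} (h : p + q ≤ 2) {c d : ℝ} {y : W}
    (hy : Par c d y) : Par ((-1) ^ p * c) ((-1) ^ q * d) (jet a b s p q y) := by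
  rw [par_iff] at *
  refine ⟨fun k => ?_, fun k => ?_⟩
  · rw [coef_jet ha hb hs h, coef_jet ha hb hs h, hy.1]
    unfold sb
    rw [om_su]
    simp only [su]
    push_cast
    rw [neg_pow]
    ring
  · rw [coef_jet ha hb hs h, coef_jet ha hb hs h, hy.2]
    unfold sb
    rw [om_st]
    simp only [st]
    push_cast
    rw [neg_pow]
    ring

end Jets

/-! ### Laurent polynomials -/

theorem isDu_toW {f g : L} (h : ∀ k : ℤ × ℤ, g.coeff k = (k.1 : ℝ) * f.coeff k) :
    IsDu (toW f) (toW g) := fun k => by rw [coef_toW, coef_toW, h]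

theorem isDt_toW {f g : L} (h : ∀ k : ℤ × ℤ, g.coeff k = (k.2 : ℝ) * f.coeff k) :
    IsDt (toW f) (toW g) := fun k => by rw [coef_toW, coef_toW, h]

theorem par_toW {a b : ℝ} {f : L} (hu : ∀ k, f.coeff (su k) = a * f.coeff k)
    (ht : ∀ k, f.coeff (st k) = b * f.coeff k) : Par a b (toW f) :=
  par_iff.mpr ⟨fun k => by rw [coef_toW, coef_toW, hu], fun k => by rw [coef_toW, coef_toW, ht]⟩

/-- the derivatives of a finite sum of exponentials -/
theorem isDu_sum (s : Finset (ℤ × ℤ)) (c : ℤ × ℤ → ℝ) :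
    IsDu (∑ k ∈ s, c k • e k) (∑ k ∈ s, ((k.1 : ℝ) * c k) • e k) := fun l => by
  rw [map_sum, map_sum, mul_sum]
  refine sum_congr rfl fun k _ => ?_
  rw [map_smul, map_smul, coef_e, smul_eq_mul, smul_eq_mul]
  split_ifs with h
  · rw [h]; ring
  · ring

theorem isDt_sum (s : Finset (ℤ × ℤ)) (c : ℤ × ℤ → ℝ) :
    IsDt (∑ k ∈ s, c k • e k) (∑ k ∈ s, ((k.2 : ℝ) * c k) • e k) := fun l => by
  rw [map_sum, map_sum, mul_sum]
  refine sum_congr rfl fun k _ => ?_
  rw [map_smul, map_smul, coef_e, smul_eq_mul, smul_eq_mul]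
  split_ifs with h
  · rw [h]; ring
  · ring

theorem norm_sum_e (s : Finset (ℤ × ℤ)) (c : ℤ × ℤ → ℝ) :
    ‖∑ k ∈ s, c k • e k‖ ≤ ∑ k ∈ s, |c k| * wt k :=
  (norm_sum_le _ _).trans (sum_le_sum fun k _ => (norm_smul_e k (c k)).le)

/-! ### numerical facts on the weight -/

theorem nu_pow_le (n : ℕ) (h : n < 2 ^ 20) : nu ^ n ≤ 1 / (1 - n / 2 ^ 20) := by
  have h0 : (n : ℝ) < 2 ^ 20 := by exact_mod_cast h
  have h1 : 0 < 1 - (n : ℝ) / 2 ^ 20 := by
    rw [sub_pos, div_lt_one (by positivity)]; exact h0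
  rw [le_div_iff₀ h1]
  have h2 : 1 - (n : ℝ) / 2 ^ 20 ≤ (1 - 1 / 2 ^ 20) ^ n := by
    have := one_add_mul_le_pow (a := -(1 / 2 ^ 20 : ℝ)) (by norm_num) n
    calc 1 - (n : ℝ) / 2 ^ 20 = 1 + n * -(1 / 2 ^ 20) := by ring
      _ ≤ (1 + -(1 / 2 ^ 20)) ^ n := this
      _ = _ := by ring
  calc nu ^ n * (1 - n / 2 ^ 20) ≤ nu ^ n * (1 - 1 / 2 ^ 20) ^ n :=
        mul_le_mul_of_nonneg_left h2 (pow_nonneg nu_pos.le _)
    _ = (nu * (1 - 1 / 2 ^ 20)) ^ n := (mul_pow _ _ _).symm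
    _ ≤ 1 ^ n := by
        refine pow_le_pow_left₀ ?_ ?_ n
        · unfold nu; norm_num
        · unfold nu; norm_num
    _ = 1 := one_pow n

theorem wt_le_of_le {k : ℤ × ℤ} {D : ℕ} (h : k.1.natAbs + k.2.natAbs ≤ D) : wt k ≤ nu ^ D :=
  pow_le_pow_right₀ one_le_nu h

/-- `nu ^ 2000 ≤ 1.002` -/
theorem nu_pow_2000 : nu ^ 2000 ≤ 1.002 := by
  refine (nu_pow_le 2000 (by norm_num)).trans ?_
  norm_num

theorem N_le_of_deg (f : L) {s : Finset (ℤ × ℤ)} (h : f.coeff.support ⊆ s) {D : ℕ}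
    (hD : ∀ k ∈ s, k.1.natAbs + k.2.natAbs ≤ D) : N f ≤ nu ^ D * ∑ k ∈ s, |f.coeff k| := by
  rw [N_eq f h, mul_sum]
  refine sum_le_sum fun k hk => ?_
  rw [mul_comm]
  exact mul_le_mul_of_nonneg_right (wt_le_of_le (hD k hk)) (abs_nonneg _)

end

end Pool.MP_ce2c94_gt.D3W
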