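import Pool.Agent.H.MP_ce2c94_gt.h42.Wien2

/-!
Evaluation of elements of the Wiener algebra: ring homomorphism, smoothness, derivatives.
-/

namespace Pool.MP_ce2c94_gt.D3W

noncomputable section

open Finset Complex

/-- the exponential function `exp (i (k.1 u + k.2 t))` -/
def chr (u t : ℝ) (k : ℤ × ℤ) : ℂ := Complex.exp (((k.1 : ℝ) * u + (k.2 : ℝ) * t : ℝ) * I)

theorem norm_chr (u t : ℝ) (k : ℤ × ℤ) : ‖chr u t k‖ = 1 := Complex.norm_exp_ofReal_mul_I _

theorem chr_aux (u t : ℝ) (k : ℤ × ℤ) : ‖chr u t k‖ ≤ 1 * wt k := by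
  rw [norm_chr, one_mul]; exact one_le_wt k

theorem chr_zero (u t : ℝ) : chr u t 0 = 1 := by simp [chr]

theorem chr_add (u t : ℝ) (k l : ℤ × ℤ) : chr u t (k + l) = chr u t k * chr u t l := by
  unfold chr
  rw [← Complex.exp_add]
  congr 1
  push_cast [Prod.fst_add, Prod.snd_add]
  ring

/-- evaluation as a continuous linear map -/
def evL (u t : ℝ) : W →L[ℝ] ℂ := ofCol (chr u t)

theorem evL_e (u t : ℝ) (k : ℤ × ℤ) : evL u t (e k) = chr u t k := ofCol_e (chr_aux u t) k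

/-- evaluation at `(u, t)` -/
def ev (u t : ℝ) : W →ₐ[ℝ] ℂ :=
  AlgHom.ofLinearMap (evL u t).toLinearMap (by
    change evL u t 1 = 1
    rw [← e_zero, evL_e, chr_zero]) (by
    intro f g
    exact map_mul_of_e (evL u t) (fun k l => by rw [← e_add, evL_e, evL_e, evL_e, chr_add]) f g)

theorem ev_eq (u t : ℝ) (f : W) : ev u t f = evL u t f := rfl

theorem ev_e (u t : ℝ) (k : ℤ × ℤ) : ev u t (e k) = chr u t k := evL_e u t k

theorem norm_ev_le (u t : ℝ) (f : W) : ‖ev u t f‖ ≤ ‖f‖ := by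
  have h := norm_ofCol_le (chr_aux u t) f
  rw [one_mul] at h
  exact h

theorem hasSum_ev (u t : ℝ) (f : W) :
    HasSum (fun k => (coef k f : ℂ) * chr u t k) (ev u t f) := by
  have h := hasSum_clm (evL u t) f
  simp only [evL_e, Complex.real_smul] at h
  exact h

theorem ev_tsum (u t : ℝ) (f : W) : ev u t f = ∑' k, (coef k f : ℂ) * chr u t k :=
  (hasSum_ev u t f).tsum_eq.symm

theorem conj_chr (u t : ℝ) (k : ℤ × ℤ) :
    (starRingEnd ℂ) (chr u t k) = chr (-u) (-t) k := by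
  unfold chr
  rw [← Complex.exp_conj]
  congr 1
  simp only [map_mul, Complex.conj_ofReal, Complex.conj_I]
  push_cast
  ring

theorem conj_ev (u t : ℝ) (f : W) : (starRingEnd ℂ) (ev u t f) = ev (-u) (-t) f := by
  rw [ev_tsum, ev_tsum, Complex.conj_tsum]
  refine tsum_congr fun k => ?_
  rw [map_mul, Complex.conj_ofReal, conj_chr]

theorem chr_add_two_pi_left (u t : ℝ) (k : ℤ × ℤ) :
    chr (u + 2 * Real.pi) t k = chr u t k := by
  unfold chr
  rw [Complex.exp_eq_exp_iff_exists_int]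
  exact ⟨k.1, by push_cast; ring⟩

theorem chr_add_two_pi_right (u t : ℝ) (k : ℤ × ℤ) :
    chr u (t + 2 * Real.pi) k = chr u t k := by
  unfold chr
  rw [Complex.exp_eq_exp_iff_exists_int]
  exact ⟨k.2, by push_cast; ring⟩

theorem ev_add_two_pi_left (u t : ℝ) (f : W) : ev (u + 2 * Real.pi) t f = ev u t f := by
  rw [ev_tsum, ev_tsum]; simp only [chr_add_two_pi_left]

theorem ev_add_two_pi_right (u t : ℝ) (f : W) : ev u (t + 2 * Real.pi) f = ev u t f := by
  rw [ev_tsum, ev_tsum]; simp only [chr_add_two_pi_right]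

/-! ### smooth Fourier series -/

/-- the size of a frequency -/
def sz (k : ℤ × ℤ) : ℝ := 1 + |(k.1 : ℝ)| + |(k.2 : ℝ)|

theorem one_le_sz (k : ℤ × ℤ) : 1 ≤ sz k := by
  unfold sz; have := abs_nonneg (k.1 : ℝ); have := abs_nonneg (k.2 : ℝ); linarith

/-- rapidly decreasing coefficients -/
def RD (c : ℤ × ℤ → ℂ) : Prop := ∀ n : ℕ, Summable fun k => ‖c k‖ * sz k ^ n

theorem RD.fst {c : ℤ × ℤ → ℂ} (h : RD c) : RD fun k => c k * ((k.1 : ℝ) * I) := fun n => by
  refine Summable.of_nonneg_of_le (fun k => ?_) (fun k => ?_) (h (n + 1))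
  · have := one_le_sz k; positivity
  · have h1 := one_le_sz k
    have h2 : |(k.1 : ℝ)| ≤ sz k := by unfold sz; have := abs_nonneg (k.2 : ℝ); linarith
    rw [norm_mul, norm_mul, Complex.norm_I, mul_one, Complex.norm_real, Real.norm_eq_abs,
      pow_succ]
    calc ‖c k‖ * |(k.1 : ℝ)| * sz k ^ n ≤ ‖c k‖ * sz k * sz k ^ n := by gcongr
      _ = _ := by ring

theorem RD.snd {c : ℤ × ℤ → ℂ} (h : RD c) : RD fun k => c k * ((k.2 : ℝ) * I) := fun n => by
  refine Summable.of_nonneg_of_le (fun k => ?_) (fun k => ?_) (h (n + 1))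
  · have := one_le_sz k; positivity
  · have h1 := one_le_sz k
    have h2 : |(k.2 : ℝ)| ≤ sz k := by unfold sz; have := abs_nonneg (k.1 : ℝ); linarith
    rw [norm_mul, norm_mul, Complex.norm_I, mul_one, Complex.norm_real, Real.norm_eq_abs,
      pow_succ]
    calc ‖c k‖ * |(k.2 : ℝ)| * sz k ^ n ≤ ‖c k‖ * sz k * sz k ^ n := by gcongr
      _ = _ := by ring

/-- the Fourier series with coefficients `c` -/
def FS (c : ℤ × ℤ → ℂ) (p : ℝ × ℝ) : ℂ := ∑' k, c k * chr p.1 p.2 k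

theorem RD.summable {c : ℤ × ℤ → ℂ} (h : RD c) (p : ℝ × ℝ) :
    Summable fun k => c k * chr p.1 p.2 k := by
  refine Summable.of_norm ?_
  simpa [norm_mul, norm_chr] using h 0

/-- the linear map `(a, b) ↦ a * x + b * y` -/
def lin (x y : ℂ) : ℝ × ℝ →L[ℝ] ℂ :=
  (ContinuousLinearMap.fst ℝ ℝ ℝ).smulRight x + (ContinuousLinearMap.snd ℝ ℝ ℝ).smulRight y

theorem lin_apply (x y : ℂ) (p : ℝ × ℝ) : lin x y p = p.1 * x + p.2 * y := by
  simp [lin]

theorem norm_lin_le (x y : ℂ) : ‖lin x y‖ ≤ ‖x‖ + ‖y‖ := by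
  refine ContinuousLinearMap.opNorm_le_bound _ (by positivity) fun p => ?_
  rw [lin_apply]
  refine (norm_add_le _ _).trans ?_
  rw [norm_mul, norm_mul, Complex.norm_real, Complex.norm_real, add_mul]
  have h1 := norm_fst_le p
  have h2 := norm_snd_le p
  have := norm_nonneg x
  have := norm_nonneg y
  nlinarith

/-- `lin` as a continuous linear map in the coefficients -/
def linL : ℂ × ℂ →L[ℝ] (ℝ × ℝ →L[ℝ] ℂ) :=
  LinearMap.mkContinuous
    { toFun := fun q => lin q.1 q.2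
      map_add' := fun q q' => by
        ext <;> simp [lin_apply]
      map_smul' := fun c q => by
        ext <;> simp [lin_apply] } 2 (fun q => by
      refine (norm_lin_le _ _).trans ?_
      have h1 := norm_fst_le q
      have h2 := norm_snd_le q
      linarith)

theorem linL_apply (q : ℂ × ℂ) : linL q = lin q.1 q.2 := rfl

theorem hasFDerivAt_chr (k : ℤ × ℤ) (p : ℝ × ℝ) :
    HasFDerivAt (fun p : ℝ × ℝ => chr p.1 p.2 k)
      (lin ((k.1 : ℝ) * I * chr p.1 p.2 k) ((k.2 : ℝ) * I * chr p.1 p.2 k)) p := by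
  have h1 : HasFDerivAt (fun p : ℝ × ℝ => (((k.1 : ℝ) * p.1 + (k.2 : ℝ) * p.2 : ℝ) : ℂ) * I)
      (lin ((k.1 : ℝ) * I) ((k.2 : ℝ) * I)) p := by
    have h2 : (fun p : ℝ × ℝ => (((k.1 : ℝ) * p.1 + (k.2 : ℝ) * p.2 : ℝ) : ℂ) * I)
        = fun p => lin ((k.1 : ℝ) * I) ((k.2 : ℝ) * I) p := by
      funext p
      rw [lin_apply]
      push_cast
      ring
    rw [h2]
    exact (lin ((k.1 : ℝ) * I) ((k.2 : ℝ) * I)).hasFDerivAt
  refine h1.cexp.congr_fderiv ?_
  refine ContinuousLinearMap.ext fun q => ?_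
  rw [_root_.smul_apply, lin_apply, lin_apply, smul_eq_mul]
  unfold chr
  ring

theorem FS_hasFDerivAt {c : ℤ × ℤ → ℂ} (h : RD c) (p : ℝ × ℝ) :
    HasFDerivAt (FS c)
      (lin (FS (fun k => c k * ((k.1 : ℝ) * I)) p) (FS (fun k => c k * ((k.2 : ℝ) * I)) p)) p := by
  have hu : Summable fun k : ℤ × ℤ => 2 * (‖c k‖ * sz k ^ 1) := (h 1).mul_left 2
  have h1 : HasFDerivAt (fun p : ℝ × ℝ => ∑' k : ℤ × ℤ, c k * chr p.1 p.2 k)
      (∑' k : ℤ × ℤ, c k • lin ((k.1 : ℝ) * I * chr p.1 p.2 k) ((k.2 : ℝ) * I * chr p.1 p.2 k))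
      p := by
    refine hasFDerivAt_tsum (f := fun (k : ℤ × ℤ) (p : ℝ × ℝ) => c k * chr p.1 p.2 k)
      (f' := fun (k : ℤ × ℤ) (p : ℝ × ℝ) =>
        c k • lin ((k.1 : ℝ) * I * chr p.1 p.2 k) ((k.2 : ℝ) * I * chr p.1 p.2 k))
      hu (fun k x => ?_) (fun k x => ?_) (h.summable (0, 0)) p
    · exact (hasFDerivAt_chr k x).const_mul (c k)
    · rw [norm_smul]
      have h3 := norm_lin_le ((k.1 : ℝ) * I * chr x.1 x.2 k) ((k.2 : ℝ) * I * chr x.1 x.2 k)
      simp only [norm_mul, norm_chr, Complex.norm_I, mul_one, Complex.norm_real,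
        Real.norm_eq_abs] at h3
      have h4 : |(k.1 : ℝ)| + |(k.2 : ℝ)| ≤ sz k := by unfold sz; linarith
      have h5 := norm_nonneg (c k)
      have h6 := one_le_sz k
      nlinarith
  refine h1.congr_fderiv ?_
  have h2 := (linL.hasSum ((h.fst.summable p).hasSum.prodMk (h.snd.summable p).hasSum))
  rw [show lin (FS (fun k => c k * ((k.1 : ℝ) * I)) p) (FS (fun k => c k * ((k.2 : ℝ) * I)) p)
    = linL (∑' k, c k * ((k.1 : ℝ) * I) * chr p.1 p.2 k,
      ∑' k, c k * ((k.2 : ℝ) * I) * chr p.1 p.2 k) from rfl, ← h2.tsum_eq]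
  refine tsum_congr fun k => ?_
  refine ContinuousLinearMap.ext fun q => ?_
  rw [_root_.smul_apply, linL_apply, lin_apply, lin_apply, smul_eq_mul]
  ring

theorem FS_contDiff (n : ℕ) : ∀ {c : ℤ × ℤ → ℂ}, RD c → ContDiff ℝ n (FS c) := by
  induction n with
  | zero =>
    intro c h
    rw [Nat.cast_zero, contDiff_zero, continuous_iff_continuousAt]
    exact fun p => (FS_hasFDerivAt h p).continuousAt
  | succ n ih =>
    intro c h
    rw [Nat.cast_succ, contDiff_succ_iff_hasFDerivAt]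
    refine ⟨fun p => linL (FS (fun k => c k * ((k.1 : ℝ) * I)) p,
      FS (fun k => c k * ((k.2 : ℝ) * I)) p), ?_, fun p => FS_hasFDerivAt h p⟩
    exact linL.contDiff.comp ((ih h.fst).prodMk (ih h.snd))

theorem RD_coef (f : W) : RD fun k => (coef k f : ℂ) := fun n => by
  have h1 := (tendsto_pow_const_div_const_pow_of_one_lt n one_lt_nu).bddAbove_range
  obtain ⟨B, hB⟩ := h1
  have h2 : ∀ m : ℕ, (m : ℝ) ^ n ≤ B * nu ^ m := fun m => by
    have := hB (Set.mem_range_self m)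
    rwa [div_le_iff₀ (pow_pos nu_pos m)] at this
  have h3 : ∀ k : ℤ × ℤ, sz k ^ n ≤ B * nu * wt k := fun k => by
    have h4 := h2 (k.1.natAbs + k.2.natAbs + 1)
    have h5 : ((k.1.natAbs + k.2.natAbs + 1 : ℕ) : ℝ) = sz k := by
      unfold sz
      push_cast
      rw [Nat.cast_natAbs, Nat.cast_natAbs]
      push_cast
      ring
    rw [h5, pow_succ] at h4
    unfold wt
    linarith
  refine Summable.of_nonneg_of_le (fun k => ?_) (fun k => ?_) ((summable_coef f).mul_left (B * nu))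
  · have := one_le_sz k; positivity
  · have h6 := h3 k
    rw [Complex.norm_real, Real.norm_eq_abs]
    have h7 := abs_nonneg (coef k f)
    nlinarith

theorem ev_eq_FS (f : W) (p : ℝ × ℝ) : ev p.1 p.2 f = FS (fun k => (coef k f : ℂ)) p :=
  ev_tsum _ _ _

/-- evaluation is smooth in the point -/
theorem contDiff_ev (f : W) : ContDiff ℝ (⊤ : ℕ∞) fun p : ℝ × ℝ => ev p.1 p.2 f := by
  rw [contDiff_infty]
  intro n
  have h : (fun p : ℝ × ℝ => ev p.1 p.2 f) = FS (fun k => (coef k f : ℂ)) :=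
    funext fun p => ev_eq_FS f p
  rw [h]
  exact FS_contDiff n (RD_coef f)

/-- `g` is the `u`-derivative of `f`, divided by `i` -/
def IsDu (f g : W) : Prop := ∀ k, coef k g = (k.1 : ℝ) * coef k f

/-- `g` is the `t`-derivative of `f`, divided by `i` -/
def IsDt (f g : W) : Prop := ∀ k, coef k g = (k.2 : ℝ) * coef k f

theorem FS_Du {f g : W} (hg : IsDu f g) (p : ℝ × ℝ) :
    FS (fun k => (coef k f : ℂ) * ((k.1 : ℝ) * I)) p = I * ev p.1 p.2 g := by
  rw [ev_eq_FS]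
  unfold FS
  rw [← tsum_mul_left]
  refine tsum_congr fun k => ?_
  have h := hg k
  simp only [h]
  push_cast
  ring

theorem FS_Dt {f g : W} (hg : IsDt f g) (p : ℝ × ℝ) :
    FS (fun k => (coef k f : ℂ) * ((k.2 : ℝ) * I)) p = I * ev p.1 p.2 g := by
  rw [ev_eq_FS]
  unfold FS
  rw [← tsum_mul_left]
  refine tsum_congr fun k => ?_
  have h := hg k
  simp only [h]
  push_cast
  ring

theorem hasFDerivAt_ev {f g h : W} (hg : IsDu f g) (hh : IsDt f h) (p : ℝ × ℝ) :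
    HasFDerivAt (fun p : ℝ × ℝ => ev p.1 p.2 f)
      (lin (I * ev p.1 p.2 g) (I * ev p.1 p.2 h)) p := by
  have h1 := FS_hasFDerivAt (RD_coef f) p
  have h2 : (fun p : ℝ × ℝ => ev p.1 p.2 f) = FS (fun k => (coef k f : ℂ)) :=
    funext fun p => ev_eq_FS f p
  rw [h2]
  refine h1.congr_fderiv ?_
  rw [FS_Du hg, FS_Dt hh]

theorem hasDerivAt_ev_u {f g : W} (hg : IsDu f g) (u t : ℝ) :
    HasDerivAt (fun s : ℝ => ev s t f) (I * ev u t g) u := by
  have h1 := FS_hasFDerivAt (RD_coef f) (u, t)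
  have h2 : (fun s : ℝ => ev s t f) = fun s => FS (fun k => (coef k f : ℂ)) (s, t) :=
    funext fun s => ev_eq_FS f (s, t)
  rw [h2]
  have h3 : HasDerivAt (fun s : ℝ => (s, t)) ((1 : ℝ), (0 : ℝ)) u :=
    (hasDerivAt_id u).prodMk (hasDerivAt_const u t)
  refine (h1.comp_hasDerivAt u h3).congr_deriv ?_
  rw [lin_apply, FS_Du hg]
  simp

theorem hasDerivAt_ev_t {f g : W} (hg : IsDt f g) (u t : ℝ) :
    HasDerivAt (fun s : ℝ => ev u s f) (I * ev u t g) t := by
  have h1 := FS_hasFDerivAt (RD_coef f) (u, t)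
  have h2 : (fun s : ℝ => ev u s f) = fun s => FS (fun k => (coef k f : ℂ)) (u, s) :=
    funext fun s => ev_eq_FS f (u, s)
  rw [h2]
  have h3 : HasDerivAt (fun s : ℝ => (u, s)) ((0 : ℝ), (1 : ℝ)) t :=
    (hasDerivAt_const t u).prodMk (hasDerivAt_id t)
  refine (h1.comp_hasDerivAt t h3).congr_deriv ?_
  rw [lin_apply, FS_Dt hg]
  simp

end

end Pool.MP_ce2c94_gt.D3W
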