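import Mathlib

/-!
The weighted Wiener algebra `W` of real-coefficient absolutely convergent double Fourier series
(completion of the Laurent polynomials in two variables for the weighted `l^1` norm).
-/

namespace Pool.MP_ce2c94_gt.D3W

noncomputable section

open AddMonoidAlgebra Finset

/-- the analytic weight -/
def nu : ℝ := 1 + 1 / 2 ^ 20

theorem one_lt_nu : 1 < nu := by unfold nu; norm_num
theorem one_le_nu : 1 ≤ nu := one_lt_nu.le
theorem nu_pos : 0 < nu := lt_trans one_pos one_lt_nu

/-- the weight of a frequency -/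
def wt (k : ℤ × ℤ) : ℝ := nu ^ (k.1.natAbs + k.2.natAbs)

theorem wt_pos (k : ℤ × ℤ) : 0 < wt k := pow_pos nu_pos _
theorem one_le_wt (k : ℤ × ℤ) : 1 ≤ wt k := one_le_pow₀ one_le_nu
theorem wt_zero : wt 0 = 1 := by simp [wt]
theorem wt_add_le (k l : ℤ × ℤ) : wt (k + l) ≤ wt k * wt l := by
  unfold wt
  rw [← pow_add]
  refine pow_le_pow_right₀ one_le_nu ?_
  have h1 := Int.natAbs_add_le k.1 l.1
  have h2 := Int.natAbs_add_le k.2 l.2
  simp only [Prod.fst_add, Prod.snd_add]
  omega

/-- Laurent polynomials in two variables with real coefficients -/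
abbrev L : Type := AddMonoidAlgebra ℝ (ℤ × ℤ)

/-- the weighted `l^1` norm of a Laurent polynomial -/
def N (f : L) : ℝ := f.coeff.sum fun k c => |c| * wt k

theorem N_eq (f : L) {s : Finset (ℤ × ℤ)} (h : f.coeff.support ⊆ s) :
    N f = ∑ k ∈ s, |f.coeff k| * wt k := by
  unfold N
  exact Finsupp.sum_of_support_subset _ h _ (by simp)

theorem N_single (k : ℤ × ℤ) (c : ℝ) : N (single k c) = |c| * wt k := by
  unfold N
  simp

theorem N_zero : N 0 = 0 := by simp [N]

theorem N_add (f g : L) : N (f + g) ≤ N f + N g := by
  classical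
  have h1 : f.coeff.support ⊆ f.coeff.support ∪ g.coeff.support := subset_union_left
  have h2 : g.coeff.support ⊆ f.coeff.support ∪ g.coeff.support := subset_union_right
  have h3 : (f + g).coeff.support ⊆ f.coeff.support ∪ g.coeff.support := by
    rw [coeff_add]; exact Finsupp.support_add
  rw [N_eq f h1, N_eq g h2, N_eq _ h3, ← sum_add_distrib]
  refine sum_le_sum fun k _ => ?_
  rw [← add_mul]
  refine mul_le_mul_of_nonneg_right ?_ (wt_pos k).le
  simpa using abs_add_le (f.coeff k) (g.coeff k)

theorem N_neg (f : L) : N (-f) = N f := by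
  classical
  have h : (-f).coeff.support ⊆ f.coeff.support := by simp
  rw [N_eq f subset_rfl, N_eq _ h]
  simp

theorem N_smul (c : ℝ) (f : L) : N (c • f) = |c| * N f := by
  classical
  have h : (c • f).coeff.support ⊆ f.coeff.support := by
    rw [coeff_smul]; exact Finsupp.support_smul
  rw [N_eq f subset_rfl, N_eq _ h, mul_sum]
  refine sum_congr rfl fun k _ => ?_
  simp [abs_mul, mul_assoc]

theorem N_sum {ι : Type*} (s : Finset ι) (x : ι → L) : N (∑ i ∈ s, x i) ≤ ∑ i ∈ s, N (x i) := by
  classical
  induction s using Finset.induction_on with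
  | empty => simp [N_zero]
  | insert a s ha ih =>
    rw [sum_insert ha, sum_insert ha]
    exact (N_add _ _).trans (by linarith)

theorem N_mul (f g : L) : N (f * g) ≤ N f * N g := by
  classical
  rw [AddMonoidAlgebra.mul_def]
  unfold Finsupp.sum
  refine (N_sum _ _).trans ?_
  rw [N_eq f subset_rfl, N_eq g subset_rfl, sum_mul]
  refine sum_le_sum fun k _ => ?_
  refine (N_sum _ _).trans ?_
  rw [mul_sum]
  refine sum_le_sum fun l _ => ?_
  rw [N_single, abs_mul]
  calc |f.coeff k| * |g.coeff l| * wt (k + l)
      ≤ |f.coeff k| * |g.coeff l| * (wt k * wt l) :=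
        mul_le_mul_of_nonneg_left (wt_add_le k l) (by positivity)
    _ = _ := by ring

theorem N_nonneg (f : L) : 0 ≤ N f := by
  rw [N_eq f subset_rfl]
  exact sum_nonneg fun k _ => mul_nonneg (abs_nonneg _) (wt_pos k).le

theorem abs_coeff_mul_wt_le (f : L) (k : ℤ × ℤ) : |f.coeff k| * wt k ≤ N f := by
  classical
  by_cases hk : k ∈ f.coeff.support
  · rw [N_eq f subset_rfl]
    exact single_le_sum (f := fun k => |f.coeff k| * wt k)
      (fun l _ => mul_nonneg (abs_nonneg _) (wt_pos l).le) hk
  · rw [Finsupp.notMem_support_iff] at hk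
    rw [hk]; simpa using N_nonneg f

theorem eq_zero_of_N (f : L) (h : N f = 0) : f = 0 := by
  ext k
  have h1 := abs_coeff_mul_wt_le f k
  rw [h] at h1
  have h2 : |f.coeff k| ≤ 0 := by
    by_contra hc
    push Not at hc
    have := mul_pos hc (wt_pos k)
    linarith
  simpa using h2

/-- the norm as a ring norm -/
def ringNorm : RingNorm L where
  toFun := N
  map_zero' := N_zero
  add_le' := N_add
  neg' := N_neg
  mul_le' := N_mul
  eq_zero_of_map_eq_zero' := eq_zero_of_N

instance instNR : NormedRing L := ringNorm.toNormedRing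

instance instNCR : NormedCommRing L where
  __ := instNR
  mul_comm := mul_comm

theorem norm_def (f : L) : ‖f‖ = N f := rfl

instance instNA : NormedAlgebra ℝ L where
  norm_smul_le c f := by
    rw [norm_def, norm_def, N_smul, Real.norm_eq_abs]

/-- the Wiener algebra -/
def W : Type := UniformSpace.Completion L

instance : NormedCommRing W := inferInstanceAs (NormedCommRing (UniformSpace.Completion L))
instance : NormedAlgebra ℝ W := inferInstanceAs (NormedAlgebra ℝ (UniformSpace.Completion L))
instance : CompleteSpace W := inferInstanceAs (CompleteSpace (UniformSpace.Completion L))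

/-- the inclusion of the Laurent polynomials -/
def toW : L →ₐ[ℝ] W where
  toRingHom := UniformSpace.Completion.coeRingHom (α := L)
  commutes' _ := rfl

theorem norm_toW (f : L) : ‖toW f‖ = N f := UniformSpace.Completion.norm_coe f

theorem dense_toW : DenseRange (toW : L → W) :=
  UniformSpace.Completion.denseRange_coe (α := L)

end

end Pool.MP_ce2c94_gt.D3W
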