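import Pool.Agent.H.MP_ce2c94_gt.h42.Wien

/-!
Linear operators on the Wiener algebra given by their columns; coefficients; the norm formula.
-/

namespace Pool.MP_ce2c94_gt.D3W

noncomputable section

open Finset

/-- the exponential with frequency `k` -/
def e (k : ℤ × ℤ) : W := toW (AddMonoidAlgebra.single k 1)

theorem norm_e (k : ℤ × ℤ) : ‖e k‖ = wt k := by
  rw [e, norm_toW, N_single]; simp

theorem e_zero : e 0 = 1 := by
  rw [e, ← AddMonoidAlgebra.one_def, map_one]

theorem e_add (k l : ℤ × ℤ) : e (k + l) = e k * e l := by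
  rw [e, e, e, ← map_mul, AddMonoidAlgebra.single_mul_single, one_mul]

instance : NormOneClass W := ⟨by rw [← e_zero, norm_e, wt_zero]⟩

theorem toW_single (k : ℤ × ℤ) (c : ℝ) : toW (AddMonoidAlgebra.single k c) = c • e k := by
  rw [e, ← map_smul, AddMonoidAlgebra.smul_single, smul_eq_mul, mul_one]

theorem toW_eq (f : L) : toW f = ∑ k ∈ f.coeff.support, f.coeff k • e k := by
  classical
  conv_lhs => rw [← AddMonoidAlgebra.sum_coeff_single f]
  unfold Finsupp.sum
  rw [map_sum]
  exact sum_congr rfl fun k _ => toW_single _ _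

variable {V : Type*} [NormedAddCommGroup V] [NormedSpace ℝ V]

/-- two continuous linear maps which agree on the exponentials are equal -/
theorem clm_ext {T S : W →L[ℝ] V} (h : ∀ k, T (e k) = S (e k)) : T = S := by
  refine ContinuousLinearMap.ext fun w => ?_
  refine dense_toW.induction_on (p := fun w => T w = S w) w
    (isClosed_eq T.continuous S.continuous) fun f => ?_
  rw [toW_eq, map_sum, map_sum]
  exact sum_congr rfl fun k _ => by rw [map_smul, map_smul, h]

/-- the linear map on Laurent polynomials with given columns -/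
def colL (a : ℤ × ℤ → V) : L →ₗ[ℝ] V where
  toFun f := f.coeff.sum fun k c => c • a k
  map_add' f g := by
    rw [AddMonoidAlgebra.coeff_add]
    exact Finsupp.sum_add_index' (by simp) (by intro k b c; rw [add_smul])
  map_smul' c f := by
    rw [AddMonoidAlgebra.coeff_smul, RingHom.id_apply]
    rw [Finsupp.sum_smul_index' (by simp), Finsupp.smul_sum]
    simp [smul_smul]

theorem colL_apply (a : ℤ × ℤ → V) (f : L) :
    colL a f = ∑ k ∈ f.coeff.support, f.coeff k • a k := rfl

theorem norm_colL_le (a : ℤ × ℤ → V) {C : ℝ} (h : ∀ k, ‖a k‖ ≤ C * wt k) (f : L) :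
    ‖colL a f‖ ≤ C * ‖toW f‖ := by
  rw [colL_apply, norm_toW, N_eq f subset_rfl, mul_sum]
  refine (norm_sum_le _ _).trans (sum_le_sum fun k _ => ?_)
  rw [norm_smul, Real.norm_eq_abs]
  calc |f.coeff k| * ‖a k‖ ≤ |f.coeff k| * (C * wt k) :=
        mul_le_mul_of_nonneg_left (h k) (abs_nonneg _)
    _ = _ := by ring

variable [CompleteSpace V]

/-- the continuous linear map with given columns `a k = T (e k)` -/
def ofCol (a : ℤ × ℤ → V) : W →L[ℝ] V := (colL a).extendOfNorm toW.toLinearMap

theorem ofCol_toW {a : ℤ × ℤ → V} {C : ℝ} (h : ∀ k, ‖a k‖ ≤ C * wt k) (f : L) :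
    ofCol a (toW f) = colL a f :=
  LinearMap.extendOfNorm_eq (e := toW.toLinearMap) dense_toW ⟨C, norm_colL_le a h⟩ f

theorem ofCol_e {a : ℤ × ℤ → V} {C : ℝ} (h : ∀ k, ‖a k‖ ≤ C * wt k) (k : ℤ × ℤ) :
    ofCol a (e k) = a k := by
  rw [e, ofCol_toW h]
  unfold colL
  simp

theorem norm_ofCol_le {a : ℤ × ℤ → V} {C : ℝ} (h : ∀ k, ‖a k‖ ≤ C * wt k) (f : W) :
    ‖ofCol a f‖ ≤ C * ‖f‖ :=
  LinearMap.norm_extendOfNorm_apply_le (e := toW.toLinearMap) dense_toW C (norm_colL_le a h) f

/-- the norm of a continuous linear map is bounded by its columns -/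
theorem norm_le_of_col {V : Type*} [NormedAddCommGroup V] [NormedSpace ℝ V]
    (T : W →L[ℝ] V) {C : ℝ} (h : ∀ k, ‖T (e k)‖ ≤ C * wt k) (f : W) :
    ‖T f‖ ≤ C * ‖f‖ := by
  refine dense_toW.induction_on (p := fun w => ‖T w‖ ≤ C * ‖w‖) f
    (isClosed_le (by fun_prop) (by fun_prop)) fun f => ?_
  have h1 := norm_colL_le (fun k => T (e k)) h f
  rw [colL_apply] at h1
  rw [toW_eq, map_sum]
  convert h1 using 2
  · exact sum_congr rfl fun k _ => by rw [map_smul]
  · rw [toW_eq]

theorem opNorm_le_of_col {V : Type*} [NormedAddCommGroup V] [NormedSpace ℝ V]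
    (T : W →L[ℝ] V) {C : ℝ} (hC : 0 ≤ C) (h : ∀ k, ‖T (e k)‖ ≤ C * wt k) : ‖T‖ ≤ C :=
  T.opNorm_le_bound hC (norm_le_of_col T h)

/-! ### coefficients -/

theorem coef_aux (k l : ℤ × ℤ) : ‖(if l = k then (1 : ℝ) else 0)‖ ≤ (1 / wt k) * wt l := by
  have := wt_pos k
  have := wt_pos l
  split_ifs with h
  · subst h; rw [one_div, inv_mul_cancel₀ this.ne']; simp
  · simp; positivity

/-- the coefficient of frequency `k` -/
def coef (k : ℤ × ℤ) : W →L[ℝ] ℝ := ofCol fun l => if l = k then 1 else 0

theorem coef_e (k l : ℤ × ℤ) : coef k (e l) = if l = k then 1 else 0 := ofCol_e (coef_aux k) l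

theorem coef_toW (k : ℤ × ℤ) (f : L) : coef k (toW f) = f.coeff k := by
  rw [toW_eq, map_sum]
  simp only [map_smul, coef_e, smul_eq_mul, mul_ite, mul_one, mul_zero]
  rw [sum_ite_eq']
  split_ifs with h
  · rfl
  · rw [Finsupp.notMem_support_iff] at h; rw [h]

theorem abs_coef_mul_wt_le (k : ℤ × ℤ) (f : W) : |coef k f| * wt k ≤ ‖f‖ := by
  have h := norm_ofCol_le (coef_aux k) f
  have hk := wt_pos k
  rw [Real.norm_eq_abs] at h
  calc |coef k f| * wt k ≤ (1 / wt k * ‖f‖) * wt k := mul_le_mul_of_nonneg_right h hk.le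
    _ = ‖f‖ := by field_simp

theorem sum_abs_coef_le (s : Finset (ℤ × ℤ)) (f : W) : ∑ k ∈ s, |coef k f| * wt k ≤ ‖f‖ := by
  refine dense_toW.induction_on (p := fun w => ∑ k ∈ s, |coef k w| * wt k ≤ ‖w‖) f
    (isClosed_le (by fun_prop) (by fun_prop)) fun f => ?_
  classical
  rw [norm_toW, N_eq f (s := s ∪ f.coeff.support) subset_union_right]
  simp only [coef_toW]
  exact sum_le_sum_of_subset_of_nonneg subset_union_left
    fun k _ _ => mul_nonneg (abs_nonneg _) (wt_pos k).le

theorem summable_coef (f : W) : Summable fun k => |coef k f| * wt k :=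
  summable_of_sum_le (fun k => mul_nonneg (abs_nonneg _) (wt_pos k).le)
    (fun s => sum_abs_coef_le s f)

theorem tsum_coef_le (f : W) : ∑' k, |coef k f| * wt k ≤ ‖f‖ :=
  (summable_coef f).tsum_le_of_sum_le (fun s => sum_abs_coef_le s f)

theorem norm_smul_e (k : ℤ × ℤ) (c : ℝ) : ‖c • e k‖ = |c| * wt k := by
  rw [norm_smul, norm_e, Real.norm_eq_abs]

theorem summable_expand (f : W) : Summable fun k => coef k f • e k := by
  refine Summable.of_norm ?_
  simp only [norm_smul_e]
  exact summable_coef f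

theorem hasSum_expand (f : W) : HasSum (fun k => coef k f • e k) f := by
  have hs := (summable_expand f).hasSum
  suffices h : ∑' k, coef k f • e k = f by rwa [h] at hs
  -- the map `f ↦ ∑' k, coef k f • e k` is continuous and linear
  let T : W →ₗ[ℝ] W :=
    { toFun := fun g => ∑' k, coef k g • e k
      map_add' := fun g g' => by
        rw [← (summable_expand g).tsum_add (summable_expand g')]
        simp [add_smul]
      map_smul' := fun c g => by
        rw [RingHom.id_apply, ← tsum_const_smul'']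
        simp [smul_smul] }
  have hT : ∀ g, ‖T g‖ ≤ 1 * ‖g‖ := fun g => by
    rw [one_mul]
    refine (norm_tsum_le_tsum_norm ?_).trans ?_
    · simp only [norm_smul_e]; exact summable_coef g
    · simp only [norm_smul_e]; exact tsum_coef_le g
  have h1 : T.mkContinuous 1 hT = ContinuousLinearMap.id ℝ W := by
    refine clm_ext fun k => ?_
    change ∑' l, coef l (e k) • e l = e k
    rw [tsum_eq_single k]
    · rw [coef_e, if_pos rfl, one_smul]
    · intro l hl
      rw [coef_e, if_neg (Ne.symm hl), zero_smul]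
  exact congrArg (fun S : W →L[ℝ] W => S f) h1

theorem norm_eq_tsum (f : W) : ‖f‖ = ∑' k, |coef k f| * wt k := by
  refine le_antisymm ?_ (tsum_coef_le f)
  conv_lhs => rw [← (hasSum_expand f).tsum_eq]
  refine (norm_tsum_le_tsum_norm ?_).trans ?_
  · simp only [norm_smul_e]; exact summable_coef f
  · simp only [norm_smul_e]; exact le_rfl

theorem W_ext {f g : W} (h : ∀ k, coef k f = coef k g) : f = g := by
  rw [← (hasSum_expand f).tsum_eq, ← (hasSum_expand g).tsum_eq]
  simp only [h]

theorem hasSum_clm {V : Type*} [NormedAddCommGroup V] [NormedSpace ℝ V] (T : W →L[ℝ] V) (f : W) :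
    HasSum (fun k => coef k f • T (e k)) (T f) := by
  have := (hasSum_expand f).mapL T
  simpa only [map_smul] using this

/-- elements from summable families of coefficients -/
theorem exists_of_summable (c : ℤ × ℤ → ℝ) (h : Summable fun k => |c k| * wt k) :
    ∃ f : W, ∀ k, coef k f = c k := by
  have h1 : Summable fun k => c k • e k := by
    refine Summable.of_norm ?_
    simpa only [norm_smul_e] using h
  refine ⟨∑' k, c k • e k, fun k => ?_⟩
  rw [(coef k).map_tsum h1]
  rw [tsum_eq_single k]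
  · rw [map_smul, coef_e, if_pos rfl, smul_eq_mul, mul_one]
  · intro l hl
    rw [map_smul, coef_e, if_neg hl, smul_zero]

/-! ### Fourier multipliers -/

/-- the Fourier multiplier with symbol `m` -/
def mult (m : ℤ × ℤ → ℝ) : W →L[ℝ] W := ofCol fun k => m k • e k

theorem mult_aux {m : ℤ × ℤ → ℝ} {C : ℝ} (h : ∀ k, |m k| ≤ C) (k : ℤ × ℤ) :
    ‖m k • e k‖ ≤ C * wt k := by
  rw [norm_smul_e]; exact mul_le_mul_of_nonneg_right (h k) (wt_pos k).le

theorem mult_e {m : ℤ × ℤ → ℝ} {C : ℝ} (h : ∀ k, |m k| ≤ C) (k : ℤ × ℤ) :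
    mult m (e k) = m k • e k := ofCol_e (mult_aux h) k

theorem norm_mult_le {m : ℤ × ℤ → ℝ} {C : ℝ} (h : ∀ k, |m k| ≤ C) (f : W) :
    ‖mult m f‖ ≤ C * ‖f‖ := norm_ofCol_le (mult_aux h) f

theorem coef_mult {m : ℤ × ℤ → ℝ} {C : ℝ} (h : ∀ k, |m k| ≤ C) (k : ℤ × ℤ) (f : W) :
    coef k (mult m f) = m k * coef k f := by
  have h1 : (coef k).comp (mult m) = m k • coef k := by
    refine clm_ext fun l => ?_
    simp only [ContinuousLinearMap.comp_apply, _root_.smul_apply, mult_e h, map_smul,
      coef_e, smul_eq_mul]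
    split_ifs with hl
    · rw [hl]
    · simp
  exact congrArg (fun S : W →L[ℝ] ℝ => S f) h1

/-- coefficients of a product with an exponential -/
theorem coef_mul_e (k l : ℤ × ℤ) (f : W) : coef k (f * e l) = coef (k - l) f := by
  have h1 : (coef k).comp ((ContinuousLinearMap.mul ℝ W).flip (e l)) = coef (k - l) := by
    refine clm_ext fun j => ?_
    simp only [ContinuousLinearMap.comp_apply, ContinuousLinearMap.flip_apply,
      ContinuousLinearMap.mul_apply', ← e_add, coef_e]
    by_cases h : j + l = k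
    · rw [if_pos h, if_pos (eq_sub_of_add_eq h)]
    · rw [if_neg h, if_neg fun h' => h (by rw [h']; simp)]
  exact congrArg (fun S : W →L[ℝ] ℝ => S f) h1

/-- a continuous linear map into a Banach algebra which is multiplicative on the exponentials is
multiplicative -/
theorem map_mul_of_e {B : Type*} [NormedRing B] [NormedAlgebra ℝ B] (T : W →L[ℝ] B)
    (h : ∀ k l, T (e k * e l) = T (e k) * T (e l)) (f g : W) : T (f * g) = T f * T g := by
  have h1 : ∀ k, ∀ g, T (e k * g) = T (e k) * T g := fun k g => by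
    have h2 : T.comp (ContinuousLinearMap.mul ℝ W (e k))
        = (ContinuousLinearMap.mul ℝ B (T (e k))).comp T := clm_ext fun l => by
      simp only [ContinuousLinearMap.comp_apply, ContinuousLinearMap.mul_apply', h]
    exact congrArg (fun S : W →L[ℝ] B => S g) h2
  have h2 : T.comp ((ContinuousLinearMap.mul ℝ W).flip g)
      = ((ContinuousLinearMap.mul ℝ B).flip (T g)).comp T := clm_ext fun k => by
    simp only [ContinuousLinearMap.comp_apply, ContinuousLinearMap.flip_apply,
      ContinuousLinearMap.mul_apply', h1]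
  exact congrArg (fun S : W →L[ℝ] B => S f) h2

end

end Pool.MP_ce2c94_gt.D3W
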